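import Pool.Agent.Helper62.LH.StG

set_option autoImplicit false

open Set Filter Topology MeasureTheory
open scoped ContDiff ENNReal

noncomputable section

namespace Pool.Agent.Helper84.LH

open Helper62.LH

/-- the Koszul covector -/
def cheK {n : ℕ} (D : E n →L[ℝ] Bl n) (u v : E n) : E n →L[ℝ] ℝ :=
  LinearMap.toContinuousLinearMap
    { toFun := fun w => (D u v w + D v u w - D w u v) / 2
      map_add' := fun w w' => by
        have h : D (w + w') u v = D w u v + D w' u v := by rw [map_add]; rfl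
        rw [map_add, map_add, h]
        ring
      map_smul' := fun c w => by
        have h : D (c • w) u v = c * D w u v := by rw [map_smul]; rfl
        rw [map_smul, map_smul, h, smul_eq_mul, smul_eq_mul, smul_eq_mul, RingHom.id_apply]
        ring }

theorem cheK_apply {n : ℕ} (D : E n →L[ℝ] Bl n) (u v w : E n) :
    cheK D u v w = (D u v w + D v u w - D w u v) / 2 := rfl

theorem cheK_add {n : ℕ} (D : E n →L[ℝ] Bl n) (u u' v : E n) :
    cheK D (u + u') v = cheK D u v + cheK D u' v := by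
  ext w
  have h1 : D (u + u') v w = D u v w + D u' v w := by rw [map_add]; rfl
  have h2 : D v (u + u') w = D v u w + D v u' w := by rw [map_add]; rfl
  have h3 : D w (u + u') v = D w u v + D w u' v := by rw [map_add]; rfl
  have h4 : (cheK D u v + cheK D u' v) w = cheK D u v w + cheK D u' v w := rfl
  rw [h4, cheK_apply, cheK_apply, cheK_apply, h1, h2, h3]
  ring

theorem cheK_smul {n : ℕ} (D : E n →L[ℝ] Bl n) (c : ℝ) (u v : E n) :
    cheK D (c • u) v = c • cheK D u v := by
  ext w
  have h1 : D (c • u) v w = c * D u v w := by rw [map_smul]; rfl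
  have h2 : D v (c • u) w = c * D v u w := by rw [map_smul]; rfl
  have h3 : D w (c • u) v = c * D w u v := by rw [map_smul]; rfl
  have h4 : (c • cheK D u v) w = c * cheK D u v w := rfl
  rw [h4, cheK_apply, cheK_apply, h1, h2, h3]
  ring

theorem cheK_add' {n : ℕ} (D : E n →L[ℝ] Bl n) (u v v' : E n) :
    cheK D u (v + v') = cheK D u v + cheK D u v' := by
  ext w
  have h1 : D u (v + v') w = D u v w + D u v' w := by rw [map_add]; rfl
  have h2 : D (v + v') u w = D v u w + D v' u w := by rw [map_add]; rfl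
  have h3 : D w u (v + v') = D w u v + D w u v' := map_add _ _ _
  have h4 : (cheK D u v + cheK D u v') w = cheK D u v w + cheK D u v' w := rfl
  rw [h4, cheK_apply, cheK_apply, cheK_apply, h1, h2, h3]
  ring

theorem cheK_smul' {n : ℕ} (D : E n →L[ℝ] Bl n) (c : ℝ) (u v : E n) :
    cheK D u (c • v) = c • cheK D u v := by
  ext w
  have h1 : D u (c • v) w = c * D u v w := by rw [map_smul]; rfl
  have h2 : D (c • v) u w = c * D v u w := by rw [map_smul]; rfl
  have h3 : D w u (c • v) = c * D w u v := map_smul _ _ _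
  have h4 : (c • cheK D u v) w = c * cheK D u v w := rfl
  rw [h4, cheK_apply, cheK_apply, h1, h2, h3]
  ring

theorem che_inv {n : ℕ} (G : Bl n) (hG : ∀ v, v ≠ 0 → 0 < G v v) :
    ∃ S : (E n →L[ℝ] ℝ) →L[ℝ] E n, ∀ a, G (S a) = a := by
  have hinj : Function.Injective (G : E n →ₗ[ℝ] (E n →L[ℝ] ℝ)) := by
    rw [← LinearMap.ker_eq_bot, LinearMap.ker_eq_bot']
    intro v hv
    by_contra hne
    have h1 := hG v hne
    have h2 : G v = 0 := hv
    rw [h2] at h1
    simp at h1
  have hdim : Module.finrank ℝ (E n) = Module.finrank ℝ (E n →L[ℝ] ℝ) := by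
    rw [← LinearEquiv.finrank_eq (LinearMap.toContinuousLinearMap : (E n →ₗ[ℝ] ℝ) ≃ₗ[ℝ] _)]
    exact (Subspace.dual_finrank_eq (K := ℝ) (V := E n)).symm
  let e : E n ≃ₗ[ℝ] (E n →L[ℝ] ℝ) := LinearMap.linearEquivOfInjective _ hinj hdim
  refine ⟨LinearMap.toContinuousLinearMap (e.symm : (E n →L[ℝ] ℝ) →ₗ[ℝ] E n), fun a => ?_⟩
  have h := e.apply_symm_apply a
  have h2 : e (e.symm a) = G (e.symm a) :=
    LinearMap.linearEquivOfInjective_apply hinj hdim (e.symm a)
  rw [h2] at h
  exact h

theorem hChe : StChe := by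
  intro n g hg
  choose S hS using fun x => che_inv (g x) (hg.pos x)
  let B : (x : E n) → E n →ₗ[ℝ] E n →ₗ[ℝ] E n := fun x =>
    LinearMap.mk₂ ℝ (fun u v => S x (cheK (fderiv ℝ g x) u v))
      (fun u u' v => by rw [cheK_add, map_add])
      (fun c u v => by rw [cheK_smul, map_smul])
      (fun u v v' => by rw [cheK_add', map_add])
      (fun c u v => by rw [cheK_smul', map_smul])
  let Q : (E n →ₗ[ℝ] E n) →ₗ[ℝ] (E n →L[ℝ] E n) :=
    (LinearMap.toContinuousLinearMap : (E n →ₗ[ℝ] E n) ≃ₗ[ℝ] (E n →L[ℝ] E n)).toLinearMap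
  refine ⟨fun x => LinearMap.toContinuousLinearMap (Q.comp (B x)), ?_⟩
  intro x u v w
  have h : (LinearMap.toContinuousLinearMap (Q.comp (B x))) u v
      = S x (cheK (fderiv ℝ g x) u v) := rfl
  rw [h, hS x, cheK_apply]

end Pool.Agent.Helper84.LH
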