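import Pool.Agent.Helper62.LH.StA

/-!
# Project LH (MP_087a81_gt), module WT: weights
-/

set_option autoImplicit false

open Set Filter Topology MeasureTheory
open scoped ContDiff ENNReal

noncomputable section

namespace Pool.Agent.Helper84.LH

open Helper62.LH

/-- The function is continuous. -/
theorem WT_cont {n : ℕ} {g : E n → Bl n} (h0 : ∀ x, dg g x x = 0)
    (hc : Continuous (fun q : E n × E n => dg g q.1 q.2)) {b : E n → ℝ}
    (hb : ∀ x y, |b x - b y| ≤ dg g x y) : Continuous b := by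
  rw [continuous_iff_continuousAt]
  intro x
  rw [ContinuousAt, tendsto_iff_dist_tendsto_zero]
  have h1 : Continuous (fun y : E n => dg g y x) :=
    hc.comp (continuous_id.prodMk continuous_const)
  have h2 : Tendsto (fun y : E n => dg g y x) (𝓝 x) (𝓝 0) := by
    have := h1.tendsto x
    rwa [h0 x] at this
  refine squeeze_zero (fun y => dist_nonneg) (fun y => ?_) h2
  rw [Real.dist_eq]
  exact hb y x

/-- Integrability of the weighted function. -/
theorem WT_int {n : ℕ} {W b : E n → ℝ} (hW : Continuous W) (hW0 : ∀ x, 0 ≤ W x)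
    (hb : Continuous b) (hK : ∀ R, IsCompact {x | b x ≤ R}) {R : ℝ} {F : ℝ → ℝ}
    (hF : Continuous F) (hF0 : ∀ s, 0 ≤ F s) (hFm : Monotone F)
    (hA : ∀ j : ℕ, Real.log (1 + ∫ x in {x | b x ≤ R + 4 + j}, W x) + j * Real.log 2 ≤
      F (R + 2 + j)) :
    Integrable (fun x => W x * Real.exp (-F (b x - 1))) := by
  set ψ : E n → ℝ := fun x => W x * Real.exp (-F (b x - 1)) with hψ
  have hψc : Continuous ψ :=
    hW.mul (Real.continuous_exp.comp (hF.comp (hb.sub continuous_const)).neg)
  have hψ0 : ∀ x, 0 ≤ ψ x := fun x => mul_nonneg (hW0 x) (Real.exp_pos _).le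
  have hint : ∀ (u : E n → ℝ), Continuous u → ∀ r, IntegrableOn u {x | b x ≤ r} := fun u hu r =>
    hu.continuousOn.integrableOn_compact (hK r)
  have hmeas : ∀ r, MeasurableSet {x | b x ≤ r} := fun r => (hK r).measurableSet
  -- the induction
  have key : ∀ m : ℕ, ∫ x in {x | b x ≤ R + 3 + m}, ψ x ≤
      (∫ x in {x | b x ≤ R + 3}, ψ x) + 2 - 2 * (1 / 2) ^ m := by
    intro m
    induction m with
    | zero => simp
    | succ m ih =>
      set V := ∫ x in {x | b x ≤ R + 4 + m}, W x with hV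
      have hV0 : 0 ≤ V := setIntegral_nonneg (hmeas _) (fun x _ => hW0 x)
      have hsub : {x | b x ≤ R + 3 + m} ⊆ {x | b x ≤ R + 3 + ((m + 1 : ℕ) : ℝ)} := by
        intro x hx
        simp only [Set.mem_ofPred_eq] at hx ⊢
        push_cast
        linarith
      have h1 : ∫ x in {x | b x ≤ R + 3 + ((m + 1 : ℕ) : ℝ)}, ψ x =
          (∫ x in {x | b x ≤ R + 3 + m}, ψ x) +
          ∫ x in {x | b x ≤ R + 3 + ((m + 1 : ℕ) : ℝ)} \ {x | b x ≤ R + 3 + m}, ψ x := by
        rw [setIntegral_sdiff (hmeas _) (hint ψ hψc _) hsub]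
        ring
      have hexp : Real.exp (-(Real.log (1 + V) + m * Real.log 2)) =
          1 / (1 + V) * (1 / 2) ^ m := by
        rw [neg_add, Real.exp_add, Real.exp_neg, Real.exp_log (by linarith), one_div,
          ← mul_neg, Real.exp_nat_mul, Real.exp_neg, Real.exp_log (by norm_num), one_div]
      have h2 : ∫ x in {x | b x ≤ R + 3 + ((m + 1 : ℕ) : ℝ)} \ {x | b x ≤ R + 3 + m}, ψ x ≤
          ∫ x in {x | b x ≤ R + 3 + ((m + 1 : ℕ) : ℝ)} \ {x | b x ≤ R + 3 + m},
            (1 / (1 + V) * (1 / 2) ^ m) * W x := by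
        apply setIntegral_mono_on
        · exact (hint ψ hψc _).mono_set Set.sdiff_subset
        · exact (hint _ (continuous_const.mul hW) _).mono_set Set.sdiff_subset
        · exact (hmeas _).diff (hmeas _)
        · rintro x ⟨-, hx⟩
          simp only [Set.mem_ofPred_eq, not_le] at hx
          have h3 : F (R + 2 + m) ≤ F (b x - 1) := hFm (by linarith)
          have h4 := (hA m).trans h3
          rw [← hexp, mul_comm]
          exact mul_le_mul_of_nonneg_left (Real.exp_le_exp.2 (by linarith)) (hW0 x)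
      have h3 : ∫ x in {x | b x ≤ R + 3 + ((m + 1 : ℕ) : ℝ)} \ {x | b x ≤ R + 3 + m},
            (1 / (1 + V) * (1 / 2) ^ m) * W x ≤ (1 / (1 + V) * (1 / 2) ^ m) * V := by
        rw [integral_const_mul]
        apply mul_le_mul_of_nonneg_left _ (by positivity)
        have hset : {x | b x ≤ R + 4 + m} = {x | b x ≤ R + 3 + ((m + 1 : ℕ) : ℝ)} := by
          ext x
          simp only [Set.mem_ofPred_eq]
          push_cast
          constructor <;> intro h <;> linarith
        rw [hV, hset]
        apply setIntegral_mono_set (hint W hW _)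
        · exact Eventually.of_forall (fun x => hW0 x)
        · exact (Set.sdiff_subset).eventuallyLE
      have h4 : (1 / (1 + V) * (1 / 2) ^ m) * V ≤ (1 / 2) ^ m := by
        have h5 : 1 / (1 + V) * V ≤ 1 := by
          rw [one_div_mul_eq_div, div_le_one (by linarith)]
          linarith
        have h6 : (0 : ℝ) ≤ (1 / 2) ^ m := by positivity
        calc (1 / (1 + V) * (1 / 2) ^ m) * V = (1 / (1 + V) * V) * (1 / 2) ^ m := by ring
          _ ≤ 1 * (1 / 2) ^ m := mul_le_mul_of_nonneg_right h5 h6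
          _ = _ := one_mul _
      have h5 : (1 / 2 : ℝ) ^ (m + 1) = (1 / 2) ^ m / 2 := by rw [pow_succ]; ring
      rw [h1, h5]
      linarith
  -- exhaustion
  have hcov : AECover (volume : Measure (E n)) atTop (fun m : ℕ => {x | b x ≤ R + 3 + m}) := by
    refine ⟨Eventually.of_forall fun x => ?_, fun m => hmeas _⟩
    have h1 : Tendsto (fun m : ℕ => R + 3 + (m : ℝ)) atTop atTop :=
      tendsto_atTop_add_const_left _ _ tendsto_natCast_atTop_atTop
    exact (h1.eventually_ge_atTop (b x)).mono fun m hm => hm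
  refine hcov.integrable_of_integral_bounded_of_nonneg_ae
    ((∫ x in {x | b x ≤ R + 3}, ψ x) + 2) (fun m => hint ψ hψc _)
    (Eventually.of_forall hψ0) (Eventually.of_forall fun m => ?_)
  have := key m
  have h6 : (0 : ℝ) ≤ (1 / 2) ^ m := by positivity
  linarith

/-- The Hessian of a composition. -/
theorem WT_hess {n : ℕ} (Γ : E n → Bm n) {F : ℝ → ℝ} {b : E n → ℝ} (hF : ContDiff ℝ ∞ F)
    (hb : ContDiff ℝ ∞ b) (x v : E n) :
    Hs Γ (fun y => F (b y)) x v v =
      deriv F (b x) * Hs Γ b x v v + deriv (deriv F) (b x) * (fderiv ℝ b x v) ^ 2 := by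
  have hF1 : ∀ s, HasDerivAt F (deriv F s) s := fun s =>
    ((hF.differentiable (by simp)) s).hasDerivAt
  have hF2' : ContDiff ℝ ∞ (deriv F) := (contDiff_infty_iff_deriv.1 hF).2
  have hF2 : ∀ s, HasDerivAt (deriv F) (deriv (deriv F) s) s := fun s =>
    ((hF2'.differentiable (by simp)) s).hasDerivAt
  have hb1 : ∀ y, HasFDerivAt b (fderiv ℝ b y) y := fun y =>
    ((hb.differentiable (by simp)) y).hasFDerivAt
  have hb2' : ContDiff ℝ ∞ (fderiv ℝ b) := hb.fderiv_right (by simp)
  have hb2 : ∀ y, HasFDerivAt (fderiv ℝ b) (fderiv ℝ (fderiv ℝ b) y) y := fun y =>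
    ((hb2'.differentiable (by simp)) y).hasFDerivAt
  have h1 : ∀ y, HasFDerivAt (fun y => F (b y)) (deriv F (b y) • fderiv ℝ b y) y := fun y =>
    (hF1 (b y)).comp_hasFDerivAt y (hb1 y)
  have h2 : fderiv ℝ (fun y => F (b y)) = fun y => deriv F (b y) • fderiv ℝ b y :=
    funext fun y => (h1 y).fderiv
  have h3 : HasFDerivAt (fun y => deriv F (b y) • fderiv ℝ b y)
      (deriv F (b x) • fderiv ℝ (fderiv ℝ b) x +
        (deriv (deriv F) (b x) • fderiv ℝ b x).smulRight (fderiv ℝ b x)) x :=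
    ((hF2 (b x)).comp_hasFDerivAt x (hb1 x)).smul (hb2 x)
  unfold Hs
  rw [h2, h3.fderiv]
  simp only [ContinuousLinearMap.add_apply, ContinuousLinearMap.smul_apply,
    ContinuousLinearMap.smulRight_apply, smul_eq_mul]
  ring

theorem hWt (hMet : StMet) (hDlc : StDlc) (hUt : StUt) (hSm : StSm) (hCvx : StCvx) : StWt := by
  intro n g Γ hg hΓ p b κ r0 hB R h hh hh0
  obtain ⟨-, -, -, hd0, -, -⟩ := hMet n g hg
  obtain ⟨-, -, hdc⟩ := hDlc n g hg
  obtain ⟨-, -, hvc, hvp, -, -⟩ := hUt n g hg
  have hbc : Continuous b := WT_cont hd0 hdc hB.lip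
  set W : E n → ℝ := fun x => h x * vol g x with hW
  have hWc : Continuous W := hh.mul hvc
  have hW0 : ∀ x, 0 ≤ W x := fun x => mul_nonneg (hh0 x) (hvp x).le
  obtain ⟨F, hFs, hF0, hFz, hFm, hF'm, hF'0, hF''0, hFA⟩ := hCvx (R + 1)
    (fun j : ℕ => Real.log (1 + ∫ x in {x | b x ≤ R + 4 + j}, W x) + j * Real.log 2)
  have hint : Integrable (fun x => W x * Real.exp (-F (b x - 1))) := by
    refine WT_int hWc hW0 hbc hB.prop (R := R) hFs.continuous hF0 hFm fun j => ?_
    have := hFA j
    rw [show R + 1 + 1 + (j : ℝ) = R + 2 + j by ring] at this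
    exact this
  refine ⟨∫ x, W x * Real.exp (-F (b x - 1)), fun ε hε => ?_⟩
  have hF'c : Continuous (deriv F) := hFs.continuous_deriv (by simp)
  obtain ⟨b', hb's, hb'⟩ := hSm n g Γ hg hΓ b hB.lip hB.cvx
    (fun x => ε / (1 + deriv F (b x + 1)))
    (continuous_const.div (continuous_const.add (hF'c.comp (hbc.add continuous_const)))
      (fun x => by have := hF'0 (b x + 1); positivity))
    (fun x => by have := hF'0 (b x + 1); positivity)
  have hle : ∀ x, h x * (Real.exp (-F (b' x)) * vol g x) ≤ W x * Real.exp (-F (b x - 1)) := by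
    intro x
    have h1 := (abs_le.1 (hb' x).1).1
    have h2 : F (b x - 1) ≤ F (b' x) := hFm (by linarith)
    have h3 : Real.exp (-F (b' x)) ≤ Real.exp (-F (b x - 1)) := Real.exp_le_exp.2 (by linarith)
    have h4 : h x * (Real.exp (-F (b' x)) * vol g x) = W x * Real.exp (-F (b' x)) := by
      rw [hW]; ring
    rw [h4]
    exact mul_le_mul_of_nonneg_left h3 (hW0 x)
  have hcf : Continuous (fun x => h x * (Real.exp (-F (b' x)) * vol g x)) :=
    hh.mul ((Real.continuous_exp.comp (hFs.continuous.comp hb's.continuous).neg).mul hvc)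
  have hnn : ∀ x, 0 ≤ h x * (Real.exp (-F (b' x)) * vol g x) := fun x =>
    mul_nonneg (hh0 x) (mul_nonneg (Real.exp_pos _).le (hvp x).le)
  have hintf : Integrable (fun x => h x * (Real.exp (-F (b' x)) * vol g x)) := by
    refine hint.mono' hcf.aestronglyMeasurable (Eventually.of_forall fun x => ?_)
    rw [Real.norm_of_nonneg (hnn x)]
    exact hle x
  refine ⟨fun x => F (b' x), hFs.comp hb's, fun x => hF0 _, fun x hx => ?_, fun x v => ?_, hintf,
    integral_mono hintf hint hle⟩
  · apply hFz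
    have := (abs_le.1 (hb' x).1).2
    linarith
  · rw [WT_hess Γ hFs hb's]
    have h1 := (hb' x).2.2 v
    have h2 : 0 ≤ deriv (deriv F) (b' x) * (fderiv ℝ b' x v) ^ 2 :=
      mul_nonneg (hF''0 _) (sq_nonneg _)
    have h3 : deriv F (b' x) ≤ deriv F (b x + 1) :=
      hF'm (by have := (abs_le.1 (hb' x).1).2; linarith)
    have h4 : 0 ≤ g x v v := by
      by_cases hv : v = 0
      · rw [hv]; simp
      · exact (hg.pos x v hv).le
    have h5 := hF'0 (b x + 1)
    have h6 := hF'0 (b' x)
    have h7 : deriv F (b' x) * (ε / (1 + deriv F (b x + 1))) ≤ ε := by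
      rw [mul_div_assoc', div_le_iff₀ (by linarith)]
      nlinarith
    have h8 : deriv F (b' x) * -(ε / (1 + deriv F (b x + 1)) * g x v v) ≤
        deriv F (b' x) * Hs Γ b' x v v := mul_le_mul_of_nonneg_left h1 h6
    have h9 : deriv F (b' x) * (ε / (1 + deriv F (b x + 1))) * g x v v ≤ ε * g x v v :=
      mul_le_mul_of_nonneg_right h7 h4
    linarith

end Pool.Agent.Helper84.LH
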